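import Pool.Agent.Lib.helper24.CP5

set_option autoImplicit false
open Matrix

namespace Pool.Agent.Results.MP_a20134_al.Q2False

/-- There is a rational 5x5 matrix A in the interior of the doubly nonnegative cone (positive definite,
entrywise positive), completely positive and on the boundary of the completely positive cone inside the
symmetric matrices, with a nonnegative square factorization B having an irrational entry, whose square
is irrational as well. -/
theorem result :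
    ∃ A : Matrix (Fin 5) (Fin 5) ℝ,
      (∀ i j, ∃ q : ℚ, A i j = (q : ℝ)) ∧
      A.PosDef ∧
      (∀ i j, 0 < A i j) ∧
      (∃ m : ℕ, ∃ C : Matrix (Fin 5) (Fin m) ℝ, (∀ i j, 0 ≤ C i j) ∧ A = C * Cᵀ) ∧
      (∀ ε : ℝ, 0 < ε → ∃ S : Matrix (Fin 5) (Fin 5) ℝ, Sᵀ = S ∧
          (∀ i j, |S i j - A i j| < ε) ∧
          ¬ ∃ m : ℕ, ∃ C : Matrix (Fin 5) (Fin m) ℝ, (∀ i j, 0 ≤ C i j) ∧ S = C * Cᵀ) ∧
      ∃ B : Matrix (Fin 5) (Fin 5) ℝ, (∀ i j, 0 ≤ B i j) ∧ A = B * Bᵀ ∧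
        ∃ i j : Fin 5, Irrational (B i j) ∧ Irrational (B i j * B i j) := by
  open Pool.Agent.Lib.helper24.CP5 in
  refine ⟨A, A_rat, A_posDef, A_pos, ⟨5, B, B_nonneg, A_eq⟩, A_boundary, B, B_nonneg, A_eq, 0, 0, ?_, ?_⟩
  · rintro ⟨r, hr⟩
    exact Pool.Agent.Lib.helper24.CP5.B00_irr ⟨r * r, by rw [← hr]; push_cast; ring⟩
  · rintro ⟨r, hr⟩
    exact Pool.Agent.Lib.helper24.CP5.B00_irr ⟨r, hr.symm⟩

end Pool.Agent.Results.MP_a20134_al.Q2False
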